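import Pool.Agent.Helper82.DG3.Final3
import Pool.Agent.Helper59.DG3.Lower

/-!
# The number of edges of the sparsest maximal straight-line RAC graphs

`IsRAC G f` and `MaxRAC G` are defined in `Pool.Agent.Helper18.RAC.Defs`.
-/

set_option autoImplicit false

namespace Pool.Agent.Results.MP_babd3c_co.AsymptoticMaximalRAC

open Pool.Agent.Helper18.RAC Filter Topology

/-- the smallest number of edges of a maximal straight-line RAC graph with `n` vertices -/
noncomputable def m₀ (n : ℕ) : ℕ :=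
  sInf {e : ℕ | ∃ G : SimpleGraph (Fin n), MaxRAC G ∧ G.edgeSet.ncard = e}

/-- Every maximal straight-line RAC graph with `n` vertices has at least `n - 1` edges, and for
every `n ≥ 2` there is one with at most `n + C n / log n` edges, `C` a constant.  Hence
`n - 1 ≤ m₀ n ≤ n + C n / log n`, and `m₀ n / n → 1`. -/
theorem result :
    (∀ (n : ℕ) (G : SimpleGraph (Fin n)), MaxRAC G → n ≤ G.edgeSet.ncard + 1) ∧
      (∃ C : ℝ, ∀ n : ℕ, 2 ≤ n →
        (∃ G : SimpleGraph (Fin n), MaxRAC G ∧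
          (G.edgeSet.ncard : ℝ) ≤ n + C * (n / Real.log n)) ∧
        (n : ℝ) - 1 ≤ m₀ n ∧ (m₀ n : ℝ) ≤ n + C * (n / Real.log n)) ∧
      Tendsto (fun n : ℕ => (m₀ n : ℝ) / n) atTop (𝓝 1) := by
  refine ⟨fun _ _ h => Pool.Agent.Helper59.DG3.maxRAC_card_fin h, ?_,
    Pool.Agent.Helper68.RAC1.tendsto_m0 fun _ h => Pool.Agent.Helper58.DG3.exists_asym_eps h⟩
  obtain ⟨C, hC⟩ := Pool.Agent.Helper58.DG3.exists_asym
  refine ⟨C, fun n hn => ?_⟩
  obtain ⟨G, hG, hle⟩ := hC n hn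
  have h1 : m₀ n ≤ G.edgeSet.ncard := Nat.sInf_le ⟨G, hG, rfl⟩
  obtain ⟨G', hG', he⟩ := Nat.sInf_mem
    (⟨_, G, hG, rfl⟩ : {e : ℕ | ∃ G : SimpleGraph (Fin n), MaxRAC G ∧ G.edgeSet.ncard = e}.Nonempty)
  have h2 := Pool.Agent.Helper59.DG3.maxRAC_card_fin hG'
  rw [he] at h2
  have h3 : (n : ℝ) ≤ (m₀ n : ℝ) + 1 := by exact_mod_cast h2
  exact ⟨⟨G, hG, hle⟩, by linarith, le_trans (by exact_mod_cast h1) hle⟩

end Pool.Agent.Results.MP_babd3c_co.AsymptoticMaximalRAC
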