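import Pool.Agent.Helper7.KB.Main

/-!
# Maximal `k`-bend RAC drawable graphs have minimum degree at least two

`IsDrawing k G f m c`, `Drawable k G`, `Maximal k G` and `mLeast k n` are defined in
`Pool.Agent.Helper7.KB.Defs`.
-/

set_option autoImplicit false

namespace Pool.Agent.Results.MP_babd3c_co.KBendMinDegree

open Pool.Agent.Helper7.KB

/-- For all `k ≥ 1` and `n ≥ 3`: in a graph on `n` vertices which is maximal in `C_k` every vertex
has at least two neighbours, and the least number `m_k (n)` of edges of such a graph (it is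
attained) is at least `n`. -/
theorem result : ∀ k n : ℕ, 1 ≤ k → 3 ≤ n →
    (∀ G : SimpleGraph (Fin n), Maximal k G → ∀ v, 2 ≤ (G.neighborSet v).ncard) ∧
      (∃ G : SimpleGraph (Fin n), Maximal k G ∧ G.edgeSet.ncard = mLeast k n) ∧
        n ≤ mLeast k n := by
  intro k n hk hn
  refine ⟨fun G hG v => hG.two_le hk ?_ v, mLeast_mem k n, le_mLeast hk hn⟩
  rw [Nat.card_eq_fintype_card, Fintype.card_fin]
  exact hn

end Pool.Agent.Results.MP_babd3c_co.KBendMinDegree
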